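import Pool.Agent.Q129.KT.Main

/-!
The exact value of `g(t)`, the supremum of the chromatic numbers of the subgraphs induced by the
vertices of degree `k + t` in `k`-trees of order at least `k + t + 2`.
-/

set_option autoImplicit false

namespace Pool.Agent.Results.MP_26d357_co.Exact

open Q129.KT

/-- `g(t) = t + 1` for every `t`; so the bound `(t ^ 2 + t + 2) / 2` is attained only for
`t = 0` and `t = 1`. -/
theorem result :
    (∀ t : ℕ, g t = ((t + 1 : ℕ) : ℕ∞)) ∧
    (∀ t : ℕ, g t = (((t ^ 2 + t + 2) / 2 : ℕ) : ℕ∞) ↔ t ≤ 1) :=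
  ⟨g_eq, g_eq_old⟩

end Pool.Agent.Results.MP_26d357_co.Exact
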